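import Mathlib
import Pool.Agent.X88.Collide

/-!
# Colliding orbits in characteristic `p`: polynomials which commute with a translation

The conjecture (`C_f(α₁, α₂; β)` is infinite if and only if `f(α₁) = f(α₂)`) fails in every
characteristic `p`, for instance for `f = x + (x ^ p - x) ^ (p + 1)`.
-/

set_option autoImplicit false

open Polynomial

namespace Pool.Agent.Results.MP_a5410e_nt.TranslationCounterexample

universe u

/-- The algebraic closure of the prime field of `p` elements inside the algebraic closure of `L`:
the set of all `x` with `x ^ (p ^ n) = x` for some `n ≥ 1`. -/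
def FpBar (p : ℕ) (L : Type u) [Field L] : Set (AlgebraicClosure L) :=
  {x | ∃ n : ℕ, 1 ≤ n ∧ x ^ p ^ n = x}

/-- `g (x + y) = g x + g y` for all `x`, `y` in the (infinite) field `AlgebraicClosure L`. -/
def IsAdditive {L : Type u} [Field L] (g : (AlgebraicClosure L)[X]) : Prop :=
  ∀ x y : AlgebraicClosure L, g.eval (x + y) = g.eval x + g.eval y

/-- The set `C_f(α₁, α₂; β)` of all parameters `l` such that `β` is in the strict forward orbits of
`α₁` and of `α₂` under `x ↦ f x + l`. -/
def collisions {L : Type u} [Field L] (f : (AlgebraicClosure L)[X]) (α₁ α₂ β : L) :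
    Set (AlgebraicClosure L) :=
  {l | ∃ m n : ℕ, 1 ≤ m ∧ 1 ≤ n ∧
    (fun x => f.eval x + l)^[m] (algebraMap L (AlgebraicClosure L) α₁) =
      algebraMap L (AlgebraicClosure L) β ∧
    (fun x => f.eval x + l)^[n] (algebraMap L (AlgebraicClosure L) α₂) =
      algebraMap L (AlgebraicClosure L) β}

theorem general (p : ℕ) [Fact p.Prime] (L : Type u) [Field L] [CharP L p]
    (f : (AlgebraicClosure L)[X]) (hf : 2 ≤ f.natDegree) (c : L) (hc0 : c ≠ 0)
    (hc : ∀ x, f.eval (x + algebraMap L (AlgebraicClosure L) c) =
      f.eval x + algebraMap L (AlgebraicClosure L) c) (t : L) :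
    (collisions f t (t + c) t).Infinite ∧
      f.eval (algebraMap L (AlgebraicClosure L) t) ≠
        f.eval (algebraMap L (AlgebraicClosure L) (t + c)) := by
  set K := AlgebraicClosure L
  set φ := algebraMap L K with hφ
  have : CharP K p := charP_of_injective_algebraMap φ.injective p
  have hc0' : φ c ≠ 0 := by
    rw [Ne, map_eq_zero]; exact hc0
  constructor
  · refine (Pool.Agent.X88.Collide.S_infinite p hf hc0' hc (φ t)).mono ?_
    rintro l ⟨n, hn, hnt⟩
    have hp : 1 ≤ p := (Fact.out : p.Prime).one_le
    refine ⟨n * p, n, Nat.mul_pos (by omega) hp, hn, ?_, ?_⟩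
    · have h := Pool.Agent.X88.Collide.iter_mul hc l (φ t) n p (-1) (by rw [hnt]; push_cast; ring)
      change (Pool.Agent.X88.Collide.step f l)^[n * p] (φ t) = φ t
      rw [h]
      have : ((-1 * (p : ℤ) : ℤ) : K) = 0 := by
        rw [Int.cast_mul, Int.cast_natCast, CharP.cast_eq_zero K p, mul_zero]
      rw [this]; ring
    · change (Pool.Agent.X88.Collide.step f l)^[n] (φ (t + c)) = φ t
      rw [map_add, Pool.Agent.X88.Collide.iter_add hc, hnt]; ring
  · rw [map_add, hc]
    intro h
    exact hc0' (by linear_combination -h)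

/-- the polynomial `x + (x ^ p - x) ^ (p + 1)` over the prime field -/
noncomputable def f₀ (p : ℕ) : (ZMod p)[X] := X + (X ^ p - X) ^ (p + 1)

section

variable (p : ℕ) [hp : Fact p.Prime] (K : Type u) [Field K] [CharP K p]

/-- the same polynomial over a field of characteristic `p` -/
noncomputable def ff : K[X] := (f₀ p).map (ZMod.castHom (dvd_refl p) K)

lemma ff_eq : ff p K = X + (X ^ p - X) ^ (p + 1) := by
  simp [ff, f₀]

lemma ff_coeff (i : ℕ) : (ff p K).coeff i ^ p = (ff p K).coeff i := by
  rw [ff, coeff_map, ← map_pow, ZMod.pow_card]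

omit [CharP K p] in
lemma natDegree_A : (X ^ p - X : K[X]).natDegree = p := by
  have h1 : (X : K[X]).natDegree < (X ^ p : K[X]).natDegree := by
    rw [natDegree_X, natDegree_X_pow]; exact hp.out.one_lt
  rw [natDegree_sub_eq_left_of_natDegree_lt h1, natDegree_X_pow]

lemma ff_natDegree : 2 ≤ (ff p K).natDegree := by
  have h2 := hp.out.two_le
  have h0 : ((X ^ p - X) ^ (p + 1) : K[X]).natDegree = (p + 1) * p := by
    rw [natDegree_pow, natDegree_A]
  have h1 : (X : K[X]).natDegree < ((X ^ p - X) ^ (p + 1) : K[X]).natDegree := by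
    rw [natDegree_X, h0]; nlinarith
  rw [ff_eq, natDegree_add_eq_right_of_natDegree_lt h1, h0]
  nlinarith

lemma ff_comm (x : K) : (ff p K).eval (x + 1) = (ff p K).eval x + 1 := by
  rw [ff_eq]
  simp only [eval_add, eval_X, eval_pow, eval_sub]
  rw [add_pow_char, one_pow]
  ring

lemma not_additive [IsAlgClosed K] (c : K) :
    ¬ ∀ x y : K, (ff p K + C c).eval (x + y) = (ff p K + C c).eval x + (ff p K + C c).eval y := by
  intro h
  have hp1 := hp.out.one_lt
  have hA : ∀ x y : K, (x + y) ^ p - (x + y) = (x ^ p - x) + (y ^ p - y) := by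
    intro x y; rw [add_pow_char]; ring
  have hsurj : ∀ u : K, ∃ x : K, x ^ p - x = u := by
    intro u
    have hd : (X ^ p - X - C u : K[X]).degree ≠ 0 := by
      intro h0
      have h00 : (X ^ p - X - C u : K[X]).natDegree = 0 := natDegree_eq_of_degree_eq_some h0
      rw [natDegree_sub_C, natDegree_A] at h00
      omega
    obtain ⟨x, hx⟩ := IsAlgClosed.exists_root _ hd
    refine ⟨x, ?_⟩
    simp only [IsRoot, eval_sub, eval_pow, eval_X, eval_C] at hx
    exact sub_eq_zero.mp hx
  have hc : c = 0 := by
    have := h 0 0
    rw [ff_eq] at this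
    simp only [eval_add, eval_X, eval_pow, eval_sub, eval_C] at this
    have h0 : ((0 : K) ^ p - 0) ^ (p + 1) = 0 := by
      rw [zero_pow hp.out.ne_zero]; simp
    rw [add_zero, h0] at this
    linear_combination -this
  subst hc
  have hrel : ∀ u v : K, u ^ p * v + v ^ p * u = 0 := by
    intro u v
    obtain ⟨x, hx⟩ := hsurj u
    obtain ⟨y, hy⟩ := hsurj v
    have := h x y
    rw [ff_eq] at this
    simp only [eval_add, eval_X, eval_pow, eval_sub, eval_C, add_zero] at this
    rw [hA, hx, hy, pow_succ, add_pow_char] at this
    linear_combination this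
  have hinf : Infinite K := IsAlgClosed.instInfinite
  have hzero : (X ^ p + X : K[X]) = 0 := by
    apply Polynomial.funext
    intro u
    have := hrel u 1
    simp only [mul_one, one_pow, one_mul] at this
    simpa using this
  have h1 : (X : K[X]).natDegree < (X ^ p : K[X]).natDegree := by
    rw [natDegree_X, natDegree_X_pow]; exact hp1
  have h2 : (X ^ p + X : K[X]).natDegree = p := by
    rw [natDegree_add_eq_left_of_natDegree_lt h1, natDegree_X_pow]
  rw [hzero, natDegree_zero] at h2
  omega

end

/-- **The colliding orbits conjecture fails in every characteristic `p`.**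

(1) There are a field `L` of characteristic `p`, a polynomial `f` of degree at least two with
coefficients in the algebraic closure of the prime field, such that `f` is not additive, not even
up to a constant, and points `α₁`, `α₂`, `β` of `L`, none of which is algebraic over the prime
field, such that `C_f(α₁, α₂; β)` is infinite although `f α₁ ≠ f α₂`.

(2) In fact `C_f(t, t + c; t)` is infinite and `f t ≠ f (t + c)` for every field `L` of
characteristic `p`, every polynomial `f` of degree at least two over the algebraic closure of `L`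
which commutes with the translation by a nonzero `c` in `L`, and every `t` in `L`. -/
theorem result (p : ℕ) [Fact p.Prime] :
    (∃ (L : Type) (_ : Field L) (_ : CharP L p) (f : (AlgebraicClosure L)[X]) (α₁ α₂ β : L),
      (∀ i, f.coeff i ∈ FpBar p L) ∧ 2 ≤ f.natDegree ∧
      (∀ c : AlgebraicClosure L, ¬ IsAdditive (f + C c)) ∧
      algebraMap L (AlgebraicClosure L) α₁ ∉ FpBar p L ∧
      algebraMap L (AlgebraicClosure L) α₂ ∉ FpBar p L ∧
      algebraMap L (AlgebraicClosure L) β ∉ FpBar p L ∧
      (collisions f α₁ α₂ β).Infinite ∧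
      f.eval (algebraMap L (AlgebraicClosure L) α₁) ≠
        f.eval (algebraMap L (AlgebraicClosure L) α₂)) ∧
    (∀ (L : Type u) [Field L] [CharP L p] (f : (AlgebraicClosure L)[X]) (c : L),
      2 ≤ f.natDegree → c ≠ 0 →
      (∀ x, f.eval (x + algebraMap L (AlgebraicClosure L) c) =
        f.eval x + algebraMap L (AlgebraicClosure L) c) →
      ∀ t : L, (collisions f t (t + c) t).Infinite ∧
        f.eval (algebraMap L (AlgebraicClosure L) t) ≠
          f.eval (algebraMap L (AlgebraicClosure L) (t + c))) := by
  constructor
  · let L := RatFunc (ZMod p)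
    have hL : CharP L p := charP_of_injective_algebraMap (algebraMap (ZMod p) L).injective p
    have hK : CharP (AlgebraicClosure L) p :=
      charP_of_injective_algebraMap (algebraMap L (AlgebraicClosure L)).injective p
    have htr : ∀ a : ZMod p, algebraMap L (AlgebraicClosure L)
        (algebraMap (ZMod p)[X] L (X + C a)) ∉ FpBar p L := by
      rintro a ⟨n, hn, h⟩
      rw [← map_pow, ← map_pow] at h
      have h1 := (algebraMap L (AlgebraicClosure L)).injective h
      have h2 := RatFunc.algebraMap_injective (ZMod p) h1
      have h3 := congrArg natDegree h2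
      rw [natDegree_pow, natDegree_X_add_C, mul_one] at h3
      have := Nat.one_lt_pow (by omega : n ≠ 0) (Fact.out : p.Prime).one_lt
      omega
    have hX := htr 0
    have hX1 := htr 1
    have hgen := general p L (ff p (AlgebraicClosure L)) (ff_natDegree p _) 1 one_ne_zero
      (by simpa using ff_comm p (AlgebraicClosure L)) (algebraMap (ZMod p)[X] L X)
    refine ⟨L, inferInstance, hL, ff p (AlgebraicClosure L), algebraMap (ZMod p)[X] L X,
      algebraMap (ZMod p)[X] L X + 1, algebraMap (ZMod p)[X] L X,
      fun i => ⟨1, le_rfl, by rw [pow_one]; exact ff_coeff p _ i⟩, ff_natDegree p _,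
      fun c h => not_additive p _ c h, by simpa using hX, by simpa using hX1, by simpa using hX,
      hgen.1, hgen.2⟩
  · intro L _ _ f c hf hc0 hc t
    exact general p L f hf c hc0 hc t

end Pool.Agent.Results.MP_a5410e_nt.TranslationCounterexample
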